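import Pool.Agent.H578.M2.UniT

set_option autoImplicit false

/-!
# Almost primes `n ^ 2 - 2` whose factors in `ℤ[√2]` avoid given sectors and sizes

If `n ^ 2 - 2` is a prime, then `n + √2` has no proper factor in `ℤ[√2]`.  Every proper factor of `n + √2` has
an associate `u + v √2` with `u > 0`, `2 |v| ≤ u` and norm `u ^ 2 - 2 v ^ 2 > 1`; its slope `v / u` in
`[-1 / 2, 1 / 2]` is its Hecke angle (`u + v √2` modulo the powers of the unit `3 + 2 √2`).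

We prove: for every finite family of boxes (slope in `[α, β]`, norm in `[y, z]`), which may depend on `X`,
of total area `∑ (β - α) (1 + log (z / y)) = σ log X`, all but a proportion `C σ` of the intervals
`(N, N + X ^ h]` with `N ≤ X` contain `≫ X ^ h / log X` integers `n` such that `n ^ 2 - 2` has at most `m`
prime factors, all of them at least `X ^ ζ`, and `n + √2` has no proper factor in any of the boxes.  The
boxes may be as small as `β - α = X ^ (-ζ / 80)`, `z = 2 y`.  Here `m = 5` for every `h > 0`, `m = 4` for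
`h > 19 / 250`, `m = 3` for `h > 9 / 20`, with `ζ` up to `(1 + h) / 5` respectively `(1 + h) / 8`, and for
`m = 3` every `ζ < 1 / 2` is possible if `h > ζ + 1 / 2`.

For example, one can exclude all the factors near the diagonal directions `v = ± u / 2`, or all the factors
with norm between `X ^ (1 - c)` and `X ^ (1 + c)`.
-/

namespace Pool.Agent.Results.MP_0b748d_nt.FactorFreeSectors

open Finset Filter
open scoped Classical

/-- All prime factors of `n ^ 2 - 2` are at least `z`. -/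
def Rough (z : ℝ) (n : ℕ) : Prop := ∀ p : ℕ, p.Prime → (p : ℤ) ∣ (n : ℤ) ^ 2 - 2 → z ≤ p

/-- `n + √2 = (u + v √2) (r + s √2)` in `ℤ[√2]` with both norms larger than `1`, `u > 0`, `2 |v| ≤ u`,
slope `v / u` in `[α, β]` and norm `u ^ 2 - 2 v ^ 2` in `[A, B]`. -/
def HasFactor (n : ℕ) (α β A B : ℝ) : Prop :=
  ∃ u v r s : ℤ, (⟨n, 1⟩ : ℤ√2) = ⟨u, v⟩ * ⟨r, s⟩ ∧ 1 < u ^ 2 - 2 * v ^ 2 ∧
    1 < r ^ 2 - 2 * s ^ 2 ∧ 0 < u ∧ 2 * |v| ≤ u ∧ α * (u : ℝ) ≤ (v : ℝ) ∧ (v : ℝ) ≤ β * (u : ℝ) ∧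
    A ≤ (u : ℝ) ^ 2 - 2 * (v : ℝ) ^ 2 ∧ (u : ℝ) ^ 2 - 2 * (v : ℝ) ^ 2 ≤ B

/-- `n ^ 2 - 2` has at most `m` prime factors (counted with multiplicity), all of them at least `X ^ ζ`,
and `n + √2` has no proper factor with slope in `[α i, β i]` and norm in `[y i, z i]`, for every `i`. -/
def Good (m : ℕ) (ζ : ℝ) (k : ℕ) (α β y z : Fin k → ℝ) (X : ℕ) (n : ℕ) : Prop :=
  ((n : ℤ) ^ 2 - 2).natAbs.primeFactorsList.length ≤ m ∧ Rough ((X : ℝ) ^ ζ) n ∧
    ∀ i, ¬ HasFactor n (α i) (β i) (y i) (z i)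

theorem hasFactor_iff (n : ℕ) (α β A B : ℝ) :
    HasFactor n α β A B ↔ Pool.Agent.H578.M2.HasFactor n α β A B := by
  have key : ∀ u v r s : ℤ, (⟨n, 1⟩ : ℤ√2) = ⟨u, v⟩ * ⟨r, s⟩ ↔
      (u * r + 2 * (v * s) = n ∧ u * s + v * r = 1) := by
    intro u v r s
    rw [Zsqrtd.ext_iff]
    simp only [Zsqrtd.re_mul, Zsqrtd.im_mul]
    constructor
    · rintro ⟨h1, h2⟩
      exact ⟨by linarith, by linarith⟩
    · rintro ⟨h1, h2⟩
      exact ⟨by linarith, by linarith⟩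
  constructor
  · rintro ⟨u, v, r, s, h0, h⟩
    obtain ⟨h1, h2⟩ := (key u v r s).1 h0
    exact ⟨u, v, r, s, h1, h2, h⟩
  · rintro ⟨u, v, r, s, h1, h2, h⟩
    exact ⟨u, v, r, s, (key u v r s).2 ⟨h1, h2⟩, h⟩

/-- Let `0 < h ≤ 1`, `0 < ζ`, and `m = 5`, `ζ < (1 + h) / 5`, or `m = 4`, `h > 19 / 250`,
`ζ < (1 + h) / 8`, or `m = 3`, `h > 9 / 20`, `ζ < (1 + h) / 8`, or `m = 3`, `2 / 5 ≤ ζ < h - 1 / 2`.

There are `δ, c > 0` such that for every `ε > 0`, every large `X` and every finite family of boxes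
`[α i, β i] × [y i, z i]` with `-1/2 ≤ α i`, `β i ≤ 1/2`, `β i - α i ≥ X ^ (-ζ / 80)`, `0 < y i ≤ z i` and
`∑ (β i - α i) (1 + log (z i / y i)) ≤ c ε log X`, all `N ≤ X` but at most `ε X` are such that the
interval `(N, N + X ^ h]` contains at least `δ X ^ h / log X` good integers.

Moreover, for a constant `C`, every large `X` and all such boxes, at most
`C (β - α) (1 + log (z / y)) X / (log X) ^ 2` of the `n ≤ X` are such that all prime factors of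
`n ^ 2 - 2` are at least `X ^ ζ` and `n + √2` has a proper factor with slope in `[α, β]` and norm in
`[y, z]`. -/
theorem result (m : ℕ) (h ζ : ℝ) (hh : 0 < h) (h1 : h ≤ 1) (hζ : 0 < ζ)
    (hpar : (m = 5 ∧ ζ < (1 + h) / 5) ∨ (m = 4 ∧ 19 / 250 < h ∧ ζ < (1 + h) / 8) ∨
      (m = 3 ∧ 9 / 20 < h ∧ ζ < (1 + h) / 8) ∨ (m = 3 ∧ 2 / 5 ≤ ζ ∧ ζ + 1 / 2 < h)) :
    (∃ δ c : ℝ, 0 < δ ∧ 0 < c ∧ ∀ ε : ℝ, 0 < ε → ∀ᶠ X : ℕ in atTop,
      ∀ (k : ℕ) (α β y z : Fin k → ℝ),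
        (∀ i, -(1 / 2) ≤ α i ∧ β i ≤ 1 / 2 ∧ (X : ℝ) ^ (-(ζ / 80)) ≤ β i - α i ∧
          0 < y i ∧ y i ≤ z i) →
        ∑ i, (β i - α i) * (1 + Real.log (z i / y i)) ≤ c * ε * Real.log X →
        (((Icc 1 X).filter (fun N : ℕ =>
          (((Ioc N (N + ⌊(X : ℝ) ^ h⌋₊)).filter (Good m ζ k α β y z X)).card : ℝ) <
            δ * (X : ℝ) ^ h / Real.log X)).card : ℝ) ≤ ε * X) ∧
    (∃ C : ℝ, 0 < C ∧ ∀ᶠ X : ℕ in atTop, ∀ α β y z : ℝ, -(1 / 2) ≤ α → β ≤ 1 / 2 →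
      (X : ℝ) ^ (-(ζ / 80)) ≤ β - α → 0 < y → y ≤ z →
        (((Icc 1 X).filter (fun n : ℕ => Rough ((X : ℝ) ^ ζ) n ∧ HasFactor n α β y z)).card : ℝ) ≤
            C * (β - α) * (1 + Real.log (z / y)) * X / (Real.log X) ^ 2) := by
  have hζ1 : ζ ≤ 1 := by
    rcases hpar with ⟨-, g⟩ | ⟨-, -, g⟩ | ⟨-, -, g⟩ | ⟨-, -, g⟩ <;> linarith
  have hr : ∀ (z : ℝ) (n : ℕ), Rough z n ↔ Pool.Agent.H578.Gen.RoughG (-2) z n := by
    intro z n
    unfold Rough Pool.Agent.H578.Gen.RoughG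
    rw [sub_eq_add_neg]
  have hg : ∀ (k : ℕ) (α β y z : Fin k → ℝ) (X n : ℕ), Good m ζ k α β y z X n ↔
      Pool.Agent.H578.M2.GoodU m ζ k α β y z X n := by
    intro k α β y z X n
    unfold Good Pool.Agent.H578.M2.GoodU
    rw [sub_eq_add_neg, hr]
    simp only [hasFactor_iff]
  constructor
  · obtain ⟨δ, c, hδ, hc, H⟩ := Pool.Agent.H578.M2.shortU m h ζ hh h1 hζ hpar
    refine ⟨δ, c, hδ, hc, fun ε hε => ?_⟩
    filter_upwards [H ε hε] with X hX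
    intro k α β y z hb ha
    have H' := hX k α β y z (fun i => ⟨by linarith [(hb i).1], by linarith [(hb i).2.1],
      (hb i).2.2⟩) ha
    simp only [hg]
    exact H'
  · obtain ⟨C, hC, H⟩ := Pool.Agent.H578.M2.fbm_le ζ hζ hζ1
    refine ⟨C, hC, ?_⟩
    filter_upwards [H] with X hX
    intro α β y z g1 g2 g3 g4 g5
    have H' := hX α β y z (by linarith) (by linarith) g3 g4 g5
    simp only [hr, hasFactor_iff]
    exact H'

end Pool.Agent.Results.MP_0b748d_nt.FactorFreeSectors
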